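import Pool.Agent.Helper8.KT.Sheet2

/-! # Row DC0: the dual of `c_0(ℕ; Z)` is separable -/

set_option autoImplicit false

open scoped ZeroAtInfty
open Set Filter Topology

namespace Pool.Agent.Helper12.KT

universe u

variable {Z : Type u} [NormedAddCommGroup Z] [NormedSpace ℝ Z]

theorem ev_le (x : C₀(ℕ, Z)) (i : ℕ) : ‖x i‖ ≤ ‖x‖ := by
  rw [← ZeroAtInftyContinuousMap.norm_toBCF_eq_norm]
  exact BoundedContinuousFunction.norm_coe_le_norm x.toBCF i

theorem nm_le (x : C₀(ℕ, Z)) (c : ℝ) (hc : 0 ≤ c) (h : ∀ i, ‖x i‖ ≤ c) : ‖x‖ ≤ c := by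
  rw [← ZeroAtInftyContinuousMap.norm_toBCF_eq_norm]
  exact (BoundedContinuousFunction.norm_le hc).2 h

/-- evaluation -/
noncomputable def ev (Z : Type u) [NormedAddCommGroup Z] [NormedSpace ℝ Z] (i : ℕ) :
    C₀(ℕ, Z) →L[ℝ] Z :=
  LinearMap.mkContinuous
    { toFun := fun x => x i
      map_add' := fun _ _ => rfl
      map_smul' := fun _ _ => rfl } 1 (fun x => by
        rw [one_mul]
        exact ev_le x i)

theorem ev_apply (x : C₀(ℕ, Z)) (i : ℕ) : ev Z i x = x i := rfl

/-- one coordinate -/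
noncomputable def em0 (i : ℕ) (z : Z) : C₀(ℕ, Z) where
  toFun := fun j => if j = i then z else 0
  continuous_toFun := continuous_of_discreteTopology
  zero_at_infty' := by
    rw [Filter.cocompact_eq_cofinite, Nat.cofinite_eq_atTop]
    refine tendsto_const_nhds.congr' ?_
    filter_upwards [eventually_gt_atTop i] with j hj
    rw [if_neg (by omega)]

theorem em0_apply (i : ℕ) (z : Z) (j : ℕ) : em0 i z j = if j = i then z else 0 := rfl

noncomputable def em (Z : Type u) [NormedAddCommGroup Z] [NormedSpace ℝ Z] (i : ℕ) :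
    Z →L[ℝ] C₀(ℕ, Z) :=
  LinearMap.mkContinuous
    { toFun := fun z => em0 i z
      map_add' := fun z w => by
        ext j
        rw [ZeroAtInftyContinuousMap.coe_add, Pi.add_apply, em0_apply, em0_apply, em0_apply]
        by_cases h : j = i
        · rw [if_pos h, if_pos h, if_pos h]
        · rw [if_neg h, if_neg h, if_neg h, add_zero]
      map_smul' := fun c z => by
        ext j
        rw [RingHom.id_apply, ZeroAtInftyContinuousMap.coe_smul, Pi.smul_apply, em0_apply,
          em0_apply]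
        by_cases h : j = i
        · rw [if_pos h, if_pos h]
        · rw [if_neg h, if_neg h, smul_zero] } 1 (fun z => by
        rw [one_mul]
        apply nm_le _ _ (norm_nonneg _)
        intro j
        show ‖em0 i z j‖ ≤ ‖z‖
        rw [em0_apply]
        by_cases h : j = i
        · rw [if_pos h]
        · rw [if_neg h, norm_zero]
          exact norm_nonneg _)

theorem em_apply (i : ℕ) (z : Z) (j : ℕ) : em Z i z j = if j = i then z else 0 := rfl

theorem sum_apply (F : Finset ℕ) (a : ℕ → Z) (j : ℕ) :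
    (∑ i ∈ F, em Z i (a i)) j = if j ∈ F then a j else 0 := by
  rw [← ev_apply, map_sum]
  have h : ∀ i ∈ F, ev Z j (em Z i (a i)) = if j = i then a i else 0 := by
    intro i _
    rw [ev_apply, em_apply]
  rw [Finset.sum_congr rfl h, Finset.sum_ite_eq]

/-- the norms of the coordinates are summable -/
theorem sum_le (f : C₀(ℕ, Z) →L[ℝ] ℝ) (F : Finset ℕ) :
    ∑ i ∈ F, ‖f.comp (em Z i)‖ ≤ ‖f‖ := by
  apply le_of_forall_pos_le_add
  intro δ hδ
  have hc : 0 < (F.card : ℝ) + 1 := by positivity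
  have hex : ∀ i : ℕ, ∃ z : Z, ‖z‖ ≤ 1 ∧ ‖f.comp (em Z i)‖ - δ / ((F.card : ℝ) + 1) ≤
      f (em Z i z) := by
    intro i
    have hlt : ‖f.comp (em Z i)‖ - δ / ((F.card : ℝ) + 1) < ‖f.comp (em Z i)‖ := by
      have : 0 < δ / ((F.card : ℝ) + 1) := div_pos hδ hc
      linarith
    obtain ⟨z, hz1, hz2⟩ := ContinuousLinearMap.exists_lt_apply_of_lt_opNorm _ hlt
    rw [ContinuousLinearMap.comp_apply, Real.norm_eq_abs] at hz2
    rcases abs_cases (f (em Z i z)) with ⟨h, _⟩ | ⟨h, _⟩
    · exact ⟨z, hz1.le, by rw [← h]; exact hz2.le⟩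
    · refine ⟨-z, by rw [norm_neg]; exact hz1.le, ?_⟩
      rw [map_neg, map_neg, ← h]
      exact hz2.le
  choose a ha1 ha2 using hex
  have hx : ‖∑ i ∈ F, em Z i (a i)‖ ≤ 1 := by
    apply nm_le _ _ zero_le_one
    intro j
    rw [sum_apply]
    by_cases h : j ∈ F
    · rw [if_pos h]
      exact ha1 j
    · rw [if_neg h, norm_zero]
      exact zero_le_one
  have h1 : f (∑ i ∈ F, em Z i (a i)) ≤ ‖f‖ := by
    have h2 := f.le_opNorm (∑ i ∈ F, em Z i (a i))
    have h3 : ‖f‖ * ‖∑ i ∈ F, em Z i (a i)‖ ≤ ‖f‖ * 1 :=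
      mul_le_mul_of_nonneg_left hx (norm_nonneg f)
    have h4 := Real.le_norm_self (f (∑ i ∈ F, em Z i (a i)))
    linarith
  rw [map_sum] at h1
  have h5 : ∑ i ∈ F, (‖f.comp (em Z i)‖ - δ / ((F.card : ℝ) + 1)) ≤ ∑ i ∈ F, f (em Z i (a i)) :=
    Finset.sum_le_sum (fun i _ => ha2 i)
  rw [Finset.sum_sub_distrib, Finset.sum_const, nsmul_eq_mul] at h5
  have h6 : (F.card : ℝ) * (δ / ((F.card : ℝ) + 1)) ≤ δ := by
    rw [mul_div_assoc', div_le_iff₀ hc]
    nlinarith
  linarith

/-- truncations converge -/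
theorem tr (x : C₀(ℕ, Z)) :
    Tendsto (fun n => ∑ i ∈ Finset.range n, em Z i (x i)) atTop (𝓝 x) := by
  rw [Metric.tendsto_atTop]
  intro ε hε
  have h0 := x.zero_at_infty'
  rw [Filter.cocompact_eq_cofinite, Nat.cofinite_eq_atTop, Metric.tendsto_atTop] at h0
  obtain ⟨N, hN⟩ := h0 (ε / 2) (by linarith)
  refine ⟨N, fun n hn => ?_⟩
  rw [dist_eq_norm]
  have : ‖∑ i ∈ Finset.range n, em Z i (x i) - x‖ ≤ ε / 2 := by
    apply nm_le _ _ (by linarith)
    intro j
    have e : (∑ i ∈ Finset.range n, em Z i (x i) - x) j =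
        (∑ i ∈ Finset.range n, em Z i (x i)) j - x j := rfl
    rw [e, sum_apply]
    by_cases h : j ∈ Finset.range n
    · rw [if_pos h, sub_self, norm_zero]
      linarith
    · rw [if_neg h, zero_sub, norm_neg]
      have hj : N ≤ j := by
        rw [Finset.mem_range] at h
        omega
      have := hN j hj
      rw [dist_zero_right] at this
      exact this.le
  linarith

theorem lim (f : C₀(ℕ, Z) →L[ℝ] ℝ) :
    Tendsto (fun n => ∑ i ∈ Finset.range n, (f.comp (em Z i)).comp (ev Z i)) atTop (𝓝 f) := by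
  have hs : Summable (fun i => ‖f.comp (em Z i)‖) :=
    summable_of_sum_le (fun i => norm_nonneg _) (sum_le f)
  have hev : ∀ i, ‖ev Z i‖ ≤ 1 := fun i => LinearMap.mkContinuous_norm_le _ zero_le_one _
  have hS : Summable (fun i => (f.comp (em Z i)).comp (ev Z i)) := by
    refine Summable.of_norm_bounded (E := C₀(ℕ, Z) →L[ℝ] ℝ) hs ?_
    intro i
    refine (ContinuousLinearMap.opNorm_comp_le _ _).trans ?_
    have := mul_le_mul_of_nonneg_left (hev i) (norm_nonneg (f.comp (em Z i)))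
    linarith
  have hT := hS.hasSum.tendsto_sum_nat
  have hg : (∑' i, (f.comp (em Z i)).comp (ev Z i)) = f := by
    ext x
    have h1 : Tendsto (fun n => (∑ i ∈ Finset.range n, (f.comp (em Z i)).comp (ev Z i)) x) atTop
        (𝓝 ((∑' i, (f.comp (em Z i)).comp (ev Z i)) x)) :=
      ((ContinuousLinearMap.apply ℝ ℝ x).continuous.tendsto _).comp hT
    have h2 : Tendsto (fun n => f (∑ i ∈ Finset.range n, em Z i (x i))) atTop (𝓝 (f x)) :=
      (f.continuous.tendsto _).comp (tr x)
    have h3 : (fun n => (∑ i ∈ Finset.range n, (f.comp (em Z i)).comp (ev Z i)) x) =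
        (fun n => f (∑ i ∈ Finset.range n, em Z i (x i))) := by
      funext n
      rw [_root_.sum_apply, map_sum]
      rfl
    rw [h3] at h1
    exact tendsto_nhds_unique h1 h2
  rw [hg] at hT
  exact hT

end Pool.Agent.Helper12.KT

namespace Pool.Agent.Helper8.KT

theorem stDC0.{u} : ST_DC0.{u} := by
  intro Z _ _ hsep
  rw [← TopologicalSpace.isSeparable_univ_iff]
  have hsep' : ∀ n : ℕ, TopologicalSpace.IsSeparable (range (fun g : ℕ → StrongDual ℝ Z =>
      (∑ i ∈ Finset.range n, (g i).comp (Pool.Agent.Helper12.KT.ev Z i) :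
        C₀(ℕ, Z) →L[ℝ] ℝ))) := by
    intro n
    apply TopologicalSpace.isSeparable_range
    apply continuous_finsetSum
    intro i _
    exact (continuous_apply i).clm_comp continuous_const
  refine (TopologicalSpace.IsSeparable.iUnion hsep').closure.mono ?_
  intro f _
  refine mem_closure_of_tendsto (Pool.Agent.Helper12.KT.lim f) (Eventually.of_forall ?_)
  intro n
  exact mem_iUnion.2 ⟨n, ⟨fun i => (f : C₀(ℕ, Z) →L[ℝ] ℝ).comp (Pool.Agent.Helper12.KT.em Z i), rfl⟩⟩

end Pool.Agent.Helper8.KT
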